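import Pool.Agent.Helper37.Canopy.Core
import Pool.Agent.Helper37.Canopy.Graph

/-! Module T2: arms in finite boxes from an infinite cluster. -/

namespace Pool.Agent.Helper37.Canopy

open MeasureTheory ProbabilityTheory unitInterval SimpleGraph

section T2

variable {D : Type} [AddCommGroup D] [Fintype D] [DecidableEq D] [Nontrivial D]
variable {V : Type*} {G : SimpleGraph V}

namespace ArmT2

/-- The descendant of `v` with address `z`. -/
def desc (C : CData D G) (v : V) (z : List D) : V := z.foldl C.child v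

omit [Fintype D] [DecidableEq D] [Nontrivial D] in
theorem desc_nil (C : CData D G) (v : V) : desc C v [] = v := rfl

omit [Fintype D] [DecidableEq D] [Nontrivial D] in
theorem desc_append (C : CData D G) (v : V) (z : List D) (a : D) :
    desc C v (z ++ [a]) = C.child (desc C v z) a := by
  simp [desc]

omit [Fintype D] [DecidableEq D] [Nontrivial D] in
theorem lev_child (C : CData D G) (v : V) (a : D) (h : 1 ≤ C.lev v) :
    C.lev (C.child v a) + 1 = C.lev v := by
  rw [← C.lev_par, C.par_child v a h]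

omit [Fintype D] [DecidableEq D] [Nontrivial D] in
theorem lev_desc (C : CData D G) (v : V) (z : List D) (h : z.length ≤ C.lev v) :
    C.lev (desc C v z) + z.length = C.lev v := by
  induction z using List.reverseRecOn with
  | nil => rfl
  | append_singleton z a ih =>
    rw [List.length_append, List.length_singleton] at h
    have h1 := ih (by omega)
    rw [desc_append, List.length_append, List.length_singleton]
    have h2 := lev_child C (desc C v z) a (by omega)
    omega

omit [Fintype D] [DecidableEq D] [Nontrivial D] in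
theorem par_desc (C : CData D G) (v : V) (z : List D) (a : D) (h : z.length + 1 ≤ C.lev v) :
    C.par (desc C v (z ++ [a])) = desc C v z := by
  have h1 := lev_desc C v z (by omega)
  rw [desc_append, C.par_child _ _ (by omega)]

omit [Fintype D] [DecidableEq D] [Nontrivial D] in
theorem desc_inj (C : CData D G) (v : V) (z z' : List D) (h : z.length ≤ C.lev v)
    (h' : z'.length ≤ C.lev v) (he : desc C v z = desc C v z') : z = z' := by
  have hl : z.length = z'.length := by
    have h1 := lev_desc C v z h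
    have h2 := lev_desc C v z' h'
    rw [he] at h1
    omega
  induction z using List.reverseRecOn generalizing z' with
  | nil =>
    rw [eq_comm, List.length_nil] at hl
    exact (List.eq_nil_of_length_eq_zero hl).symm
  | append_singleton z a ih =>
    rcases List.eq_nil_or_concat z' with rfl | ⟨z1, b, rfl⟩
    · simp at hl
    · rw [List.concat_eq_append] at *
      have hz : z.length + 1 ≤ C.lev v := by simpa using h
      have hz1 : z1.length + 1 ≤ C.lev v := by simpa using h'
      have hp := congrArg C.par he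
      rw [par_desc C v z a hz, par_desc C v z1 b hz1] at hp
      have hzz := ih z1 (by omega) (by omega) hp (by simpa using hl)
      subst hzz
      rw [desc_append, desc_append] at he
      have h1 := lev_desc C v z (by omega)
      have := C.child_inj _ (by omega) he
      rw [this]

omit [Fintype D] [DecidableEq D] [Nontrivial D] in
theorem desc_adj (C : CData D G) (v : V) (z z' : List D) (h : z.length ≤ C.lev v)
    (h' : z'.length ≤ C.lev v) :
    G.Adj (desc C v z) (desc C v z') ↔ (WT D).Adj z z' := by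
  have key : ∀ z z' : List D, z.length ≤ C.lev v → z'.length ≤ C.lev v →
      (C.par (desc C v z) = desc C v z' ↔ ∃ a, z = z' ++ [a]) := by
    intro z z' h h'
    constructor
    · intro hp
      rcases List.eq_nil_or_concat z with rfl | ⟨z1, b, rfl⟩
      · rw [desc_nil] at hp
        have h1 := C.lev_par v
        have h2 := lev_desc C v z' h'
        rw [hp] at h1
        omega
      · rw [List.concat_eq_append] at *
        have hz : z1.length + 1 ≤ C.lev v := by simpa using h
        rw [par_desc C v z1 b hz] at hp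
        exact ⟨b, by rw [desc_inj C v z1 z' (by omega) h' hp]⟩
    · rintro ⟨a, rfl⟩
      rw [par_desc C v z' a (by simpa using h)]
  rw [C.adj_iff, key z z' h h', key z' z h' h]
  simp only [WT]
  tauto

/-- Box embedding. -/
def emb (C : CData D G) (k : ℕ) (q : List D × ℤ) : V × ℤ := (desc C (C.ray k) q.1, q.2)

omit [Fintype D] [DecidableEq D] [Nontrivial D] in
theorem emb_adj (C : CData D G) (k : ℕ) (q q' : List D × ℤ) (h : q.1.length ≤ k)
    (h' : q'.1.length ≤ k) :
    (G □ hasse ℤ).Adj (emb C k q) (emb C k q') ↔ (WZ D).Adj q q' := by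
  have hk : C.lev (C.ray k) = k := C.lev_ray k
  simp only [WZ, emb, SimpleGraph.boxProd_adj]
  rw [desc_adj C _ _ _ (by omega) (by omega)]
  constructor
  · rintro (h1 | ⟨h1, h2⟩)
    · exact Or.inl h1
    · exact Or.inr ⟨h1, desc_inj C _ _ _ (by omega) (by omega) h2⟩
  · rintro (h1 | ⟨h1, h2⟩)
    · exact Or.inl h1
    · exact Or.inr ⟨h1, by rw [h2]⟩

omit [Fintype D] [DecidableEq D] [Nontrivial D] in
theorem emb_inj (C : CData D G) (k : ℕ) (q q' : List D × ℤ) (h : q.1.length ≤ k)
    (h' : q'.1.length ≤ k) (he : emb C k q = emb C k q') : q = q' := by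
  have hk : C.lev (C.ray k) = k := C.lev_ray k
  simp only [emb, Prod.mk.injEq] at he
  exact Prod.ext (desc_inj C _ _ _ (by omega) (by omega) he.1) he.2

omit [Fintype D] [DecidableEq D] [Nontrivial D] in
/-- Pull back of paths inside the image of a box. -/
theorem reach_emb (C : CData D G) (k : ℕ) (a b : ℤ) (ω : Cfg (Sym2 (V × ℤ)))
    (q : List D × ℤ) (hq : q ∈ box D k a b) (y : V × ℤ)
    (h : (res (opn (G □ hasse ℤ) ω) (emb C k '' box D k a b)).Reachable (emb C k q) y) :
    ∃ q' ∈ box D k a b, emb C k q' = y ∧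
      (opn (BG D k a b) (fun e => ω (Sym2.map (emb C k) e))).Reachable q q' := by
  rw [reachable_iff_rtg] at h
  induction h with
  | refl => exact ⟨q, hq, rfl, SimpleGraph.Reachable.refl q⟩
  | @tail y y' _ hyy ih =>
    obtain ⟨q1, hq1, hq1e, hr⟩ := ih
    obtain ⟨q2, hq2, hq2e⟩ := hyy.2.2
    refine ⟨q2, hq2, hq2e, hr.trans (SimpleGraph.Adj.reachable ?_)⟩
    have h1 := hyy.1
    rw [← hq1e, ← hq2e] at h1
    refine ⟨⟨(emb_adj C k q1 q2 hq1.1 hq2.1).mp h1.1, hq1, hq2⟩, ?_⟩
    simpa using h1.2

/-- Finite vertex set of the descendants of `ray k`. -/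
noncomputable def Bk [DecidableEq V] (C : CData D G) (k : ℕ) : Finset V :=
  (List.finite_length_le D k).toFinset.image (desc C (C.ray k))

omit [DecidableEq D] [Nontrivial D] in
theorem mem_Bk [DecidableEq V] (C : CData D G) (k : ℕ) (v : V) :
    v ∈ Bk C k ↔ ∃ z : List D, z.length ≤ k ∧ desc C (C.ray k) z = v := by
  simp [Bk]

/-- Vertical edges over the descendants of `ray k` between the heights `x` and `x + 1`. -/
noncomputable def Ek [DecidableEq V] (C : CData D G) (k : ℕ) (x : ℤ) : Finset (Sym2 (V × ℤ)) :=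
  (Bk C k).image (fun v => s((v, x), (v, x + 1)))

omit [DecidableEq D] [Nontrivial D] in
theorem Ek_card [DecidableEq V] (C : CData D G) (k : ℕ) (x : ℤ) :
    (Ek C k x).card = (Bk C k).card := by
  refine Finset.card_image_of_injective _ ?_
  intro v v' h
  simp only [Sym2.eq_iff, Prod.mk.injEq] at h
  rcases h with h | h
  · exact h.1.1
  · omega

omit [DecidableEq D] [Nontrivial D] in
theorem Ek_disj [DecidableEq V] (C : CData D G) (k : ℕ) (x x' : ℤ) (h : x ≠ x') :
    Disjoint (Ek C k x) (Ek C k x') := by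
  rw [Finset.disjoint_left]
  intro e he he'
  simp only [Ek, Finset.mem_image] at he he'
  obtain ⟨v, _, rfl⟩ := he
  obtain ⟨v', _, he'⟩ := he'
  simp only [Sym2.eq_iff, Prod.mk.injEq] at he'
  rcases he' with h1 | h1
  · exact h h1.1.2.symm
  · omega

/-- The event that all the edges of `Ek C k x` are closed. -/
def cutEv [DecidableEq V] (C : CData D G) (k : ℕ) (x : ℤ) : Set (Cfg (Sym2 (V × ℤ))) :=
  {ω | ∀ e ∈ Ek C k x, ω e = false}

omit [DecidableEq D] [Nontrivial D] in
theorem Pr_cut_union [DecidableEq V] (C : CData D G) {p : I} (hp : p < 1) (k : ℕ) {ε : ℝ}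
    (hε : 0 < ε) : ∃ N : ℕ, ∀ U : Finset ℤ, N ≤ U.card →
      1 - ε ≤ Pr p (⋃ x ∈ U, cutEv C k x) := by
  set c : ℝ := (1 - (p : ℝ)) ^ (Bk C k).card with hc
  have hp1 : (0 : ℝ) < 1 - (p : ℝ) := by
    have : (p : ℝ) < 1 := hp
    linarith
  have hp2 : 1 - (p : ℝ) ≤ 1 := by
    have : (0 : ℝ) ≤ p := p.2.1
    linarith
  have hc0 : 0 < c := pow_pos hp1 _
  have hc1 : c ≤ 1 := pow_le_one₀ hp1.le hp2
  obtain ⟨N, hN⟩ := exists_pow_lt_of_lt_one hε (show 1 - c < 1 by linarith)
  refine ⟨N, fun U hU => ?_⟩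
  have h1 : 1 - (1 - c) ^ U.card ≤ Pr p (⋃ x ∈ U, cutEv C k x) := by
    refine le_Pr_biUnion U (fun x => (Ek C k x : Set (Sym2 (V × ℤ)))) _ ?_ ?_ ?_ hc0.le ?_
    · intro x _ x' _ hxx
      rw [Function.onFun, Finset.disjoint_coe]
      exact Ek_disj C k x x' hxx
    · intro x _
      exact measurableSet_all _ _
    · intro x _ ω ω' h hω e he
      rw [← h e (by simpa using he)]
      exact hω e he
    · intro x _
      rw [cutEv, Pr_closed, Ek_card]
  have h2 : (1 - c) ^ U.card ≤ (1 - c) ^ N :=
    pow_le_pow_of_le_one (by linarith) (by linarith) hU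
  linarith

omit [DecidableEq D] [Nontrivial D] in
theorem exit_of_cut [DecidableEq V] (C : CData D G) (k H : ℕ) (ω : Cfg (Sym2 (V × ℤ)))
    (hω : {y | (opn (G □ hasse ℤ) ω).Reachable (C.ray 0, 0) y}.Infinite)
    (h0 : desc C (C.ray k) (List.replicate k 0) = C.ray 0)
    (hup : ∃ x : ℤ, 0 ≤ x ∧ x < H ∧ ω ∈ cutEv C k x)
    (hdn : ∃ x : ℤ, -(H : ℤ) ≤ x ∧ x < 0 ∧ ω ∈ cutEv C k x) :
    ∃ h : ℤ, (opn (BG D k (-H) H) (fun e => ω (Sym2.map (emb C k) e))).Reachable
      (List.replicate k 0, 0) ([], h) := by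
  obtain ⟨x1, hx1, hx1', hc1⟩ := hup
  obtain ⟨x2, hx2, hx2', hc2⟩ := hdn
  -- the region
  have hbfin : (box D k (x2 + 1) x1).Finite := by
    have : box D k (x2 + 1) x1 ⊆ {z : List D | z.length ≤ k} ×ˢ Set.Icc (x2 + 1) x1 := by
      rintro ⟨z, t⟩ ⟨h1, h2, h3⟩
      exact ⟨h1, h2, h3⟩
    exact ((List.finite_length_le D k).prod (Set.finite_Icc _ _)).subset this
  set Q := emb C k '' box D k (x2 + 1) x1 with hQ
  have hQfin : Q.Finite := hbfin.image _
  obtain ⟨y, hy, hyQ⟩ := hω.exists_notMem_finite hQfin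
  have hstart : emb C k (List.replicate k 0, 0) = (C.ray 0, 0) := by
    simp [emb, h0]
  have hsb : ((List.replicate k 0, 0) : List D × ℤ) ∈ box D k (x2 + 1) x1 := by
    refine ⟨by simp, ?_, ?_⟩
    · change x2 + 1 ≤ 0
      omega
    · exact hx1
  have hsQ : ((C.ray 0, 0) : V × ℤ) ∈ Q := ⟨_, hsb, hstart⟩
  have hmono : BG D k (x2 + 1) x1 ≤ BG D k (-H) H := by
    refine res_mono le_rfl ?_
    rintro ⟨z, t⟩ ⟨h1, h2, h3⟩
    refine ⟨h1, ?_, ?_⟩
    · change -(H : ℤ) ≤ t
      change x2 + 1 ≤ t at h2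
      omega
    · change t ≤ (H : ℤ)
      change t ≤ x1 at h3
      omega
  rcases reach_or_exit hy hsQ with h1 | ⟨x, hx, y', hy', hr, hadj⟩
  · exact absurd (mem_of_reachable_res hsQ h1) hyQ
  · rw [← hstart] at hr
    obtain ⟨q, hq, hqe, hrq⟩ := reach_emb C k _ _ ω _ hsb x hr
    have hk : C.lev (C.ray k) = k := C.lev_ray k
    obtain ⟨z, t⟩ := q
    obtain ⟨hz, ht1, ht2⟩ := hq
    change z.length ≤ k at hz
    change x2 + 1 ≤ t at ht1
    change t ≤ x1 at ht2
    have hz0 : z = [] := by
      by_contra hne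
      rw [← hqe] at hadj
      obtain ⟨w, t'⟩ := y'
      have hadj1 := hadj.1
      have hadj2 := hadj.2
      rw [SimpleGraph.boxProd_adj] at hadj1
      change (G.Adj (desc C (C.ray k) z) w ∧ t = t') ∨
        ((hasse ℤ).Adj t t' ∧ desc C (C.ray k) z = w) at hadj1
      rcases hadj1 with ⟨h1, h2⟩ | ⟨h1, h2⟩
      · subst h2
        rw [C.adj_iff] at h1
        rcases h1 with h1 | h1
        · rcases List.eq_nil_or_concat z with rfl | ⟨z1, b, rfl⟩
          · exact hne rfl
          · rw [List.concat_eq_append] at *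
            have hz1 : z1.length + 1 ≤ k := by simpa using hz
            rw [par_desc C _ z1 b (by omega)] at h1
            apply hy'
            refine ⟨(z1, t), ⟨?_, ht1, ht2⟩, ?_⟩
            · change z1.length ≤ k
              omega
            · simp [emb, h1]
        · obtain ⟨a, ha⟩ := C.child_surj w
          rw [h1, ← desc_append] at ha
          have hl := lev_desc C (C.ray k) z (by omega)
          have hl2 := C.lev_par w
          rw [h1] at hl2
          apply hy'
          refine ⟨(z ++ [a], t), ⟨?_, ht1, ht2⟩, ?_⟩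
          · simp only [List.length_append, List.length_singleton]
            omega
          · simp [emb, ha]
      · subst h2
        change ω s((desc C (C.ray k) z, t), (desc C (C.ray k) z, t')) = true at hadj2
        have hmem : ∀ x : ℤ, s((desc C (C.ray k) z, x), (desc C (C.ray k) z, x + 1)) ∈ Ek C k x := by
          intro x
          exact Finset.mem_image.mpr ⟨_, (mem_Bk C k _).mpr ⟨z, hz, rfl⟩, rfl⟩
        rw [zadj] at h1
        rcases h1 with h1 | h1
        · subst h1
          by_cases ht : t = x1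
          · subst ht
            rw [hc1 _ (hmem t)] at hadj2
            exact absurd hadj2 (by simp)
          · apply hy'
            refine ⟨(z, t + 1), ⟨hz, ?_, ?_⟩, rfl⟩
            · change x2 + 1 ≤ t + 1
              omega
            · change t + 1 ≤ x1
              omega
        · by_cases ht : t' = x2
          · subst ht
            subst h1
            rw [Sym2.eq_swap, hc2 _ (hmem t')] at hadj2
            exact absurd hadj2 (by simp)
          · apply hy'
            refine ⟨(z, t'), ⟨hz, ?_, ?_⟩, rfl⟩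
            · change x2 + 1 ≤ t'
              omega
            · change t' ≤ x1
              omega
    subst hz0
    exact ⟨t, hrq.mono (opn_mono hmono le_rfl)⟩

omit [Fintype D] [DecidableEq D] [Nontrivial D] in
theorem desc_ray (C : CData D G) (k : ℕ) : desc C (C.ray k) (List.replicate k 0) = C.ray 0 := by
  have key : ∀ j k, j ≤ k → desc C (C.ray k) (List.replicate j 0) = C.ray (k - j) := by
    intro j
    induction j with
    | zero => intro k _; simp [desc]
    | succ j ih =>
      intro k hj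
      rw [List.replicate_succ', desc_append, ih k (by omega)]
      have : k - j = (k - (j + 1)) + 1 := by omega
      rw [this, C.child_ray]
  have := key k k le_rfl
  simpa using this

end ArmT2

open ArmT2 in
theorem armHyp_of_canopy [Countable V] (C : CData D G) {p : I} (hp : p < 1) {θ : ℝ} (hθ : 0 < θ)
    (h : θ ≤ Pr p {ω | {y | (opn (G □ hasse ℤ) ω).Reachable (C.ray 0, 0) y}.Infinite}) :
    ArmHyp D p (θ / 2) := by
  classical
  intro k
  obtain ⟨N, hN⟩ := Pr_cut_union C hp k (show 0 < θ / 4 by positivity)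
  refine ⟨N, ?_⟩
  have hup := hN (Finset.Ico 0 (N : ℤ)) (by simp)
  have hdn := hN (Finset.Ico (-(N : ℤ)) 0) (by simp)
  set A : Set (Cfg (Sym2 (V × ℤ))) :=
    {ω | {y | (opn (G □ hasse ℤ) ω).Reachable (C.ray 0, 0) y}.Infinite} with hA
  set U1 : Set (Cfg (Sym2 (V × ℤ))) := ⋃ x ∈ Finset.Ico 0 (N : ℤ), cutEv C k x with hU1
  set U2 : Set (Cfg (Sym2 (V × ℤ))) := ⋃ x ∈ Finset.Ico (-(N : ℤ)) 0, cutEv C k x with hU2
  set A' : Set (Cfg (Sym2 (List D × ℤ))) := {ω | ∃ h : ℤ,
    (opn (BG D k (-N) N) ω).Reachable (List.replicate k 0, 0) ([], h)} with hA'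
  have hcutm : ∀ x, MeasurableSet (cutEv C k x) := fun x => measurableSet_all _ _
  have mU1 : MeasurableSet U1 := Finset.measurableSet_biUnion _ fun x _ => hcutm x
  have mU2 : MeasurableSet U2 := Finset.measurableSet_biUnion _ fun x _ => hcutm x
  have mA' : MeasurableSet A' := by
    have : A' = ⋃ h : ℤ, conn (BG D k (-N) N) (List.replicate k 0, 0) ([], h) := by
      ext ω; simp [hA', conn]
    rw [this]
    exact MeasurableSet.iUnion fun h => measurableSet_conn _ _ _
  have dA' : Dep (BG D k (-(N : ℤ)) N).edgeSet A' := by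
    intro ω ω' h hω
    obtain ⟨x, hx⟩ := hω
    exact ⟨x, (conn_dep _ _ _) ω ω' h hx⟩
  have hpull : Pr p {ω : Cfg (Sym2 (V × ℤ)) | (fun e => ω (Sym2.map (emb C k) e)) ∈ A'}
      = Pr p A' := by
    refine Pr_pull_graph (emb C k) (R' := box D k (-N) N) ?_ ?_ mA' dA'
    · intro q hq q' hq' he
      exact emb_inj C k q q' hq.1 hq'.1 he
    · intro x y hxy
      exact hxy.2.1
  rw [← hpull]
  have hsub : A ⊆ {ω : Cfg (Sym2 (V × ℤ)) | (fun e => ω (Sym2.map (emb C k) e)) ∈ A'} ∪
      (U1ᶜ ∪ U2ᶜ) := by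
    intro ω hω
    by_cases h1 : ω ∈ U1
    · by_cases h2 : ω ∈ U2
      · left
        simp only [hU1, Set.mem_iUnion, Finset.mem_Ico] at h1
        simp only [hU2, Set.mem_iUnion, Finset.mem_Ico] at h2
        obtain ⟨x1, ⟨h1a, h1b⟩, h1c⟩ := h1
        obtain ⟨x2, ⟨h2a, h2b⟩, h2c⟩ := h2
        exact exit_of_cut C k N ω hω (desc_ray C k) ⟨x1, h1a, h1b, h1c⟩ ⟨x2, h2a, h2b, h2c⟩
      · exact Or.inr (Or.inr h2)
    · exact Or.inr (Or.inl h1)
  have h1 := Pr_mono (p := p) hsub
  have h2 := Pr_union_le (p := p)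
    {ω : Cfg (Sym2 (V × ℤ)) | (fun e => ω (Sym2.map (emb C k) e)) ∈ A'} (U1ᶜ ∪ U2ᶜ)
  have h3 := Pr_union_le (p := p) U1ᶜ U2ᶜ
  rw [Pr_compl mU1, Pr_compl mU2] at h3
  linarith

end T2

end Pool.Agent.Helper37.Canopy
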