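import Pool.Agent.Helper37.Canopy.CDefs
import Pool.Agent.Helper37.Canopy.Core
import Pool.Agent.Helper37.Canopy.Graph

/-! Module T1: coordinates on an abstract canopy tree. -/

namespace Pool.Agent.Helper37.Canopy

open MeasureTheory ProbabilityTheory unitInterval SimpleGraph

section T1

theorem IsCanopyTree.finite_nbr {d : ℕ} (hd : 2 ≤ d) {V : Type*} {G : SimpleGraph V} {lev : V → ℕ}
    (h : IsCanopyTree d G lev) (v : V) : {w | G.Adj v w}.Finite := by
  have h1 : {w | G.Adj v w ∧ lev w = lev v + 1}.Finite := by
    obtain ⟨w, hw, hu⟩ := h.up v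
    refine (Set.finite_singleton w).subset ?_
    intro x hx
    exact hu x hx
  have h2 : {w | G.Adj v w ∧ lev w + 1 = lev v}.Finite := by
    by_cases hv : 1 ≤ lev v
    · have := h.down v hv
      refine Set.finite_of_ncard_pos ?_
      omega
    · have : {w | G.Adj v w ∧ lev w + 1 = lev v} = ∅ := by
        ext w
        simp only [Set.mem_ofPred_eq, Set.mem_empty_iff_false, iff_false]
        rintro ⟨_, h3⟩
        omega
      rw [this]; exact Set.finite_empty
  refine (h1.union h2).subset ?_
  intro w hw
  rcases h.no_other v w hw with h3 | h3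
  · exact Or.inl ⟨hw, h3⟩
  · exact Or.inr ⟨hw, h3.symm⟩

theorem countable_of_canopy {d : ℕ} (hd : 2 ≤ d) {V : Type*} {G : SimpleGraph V} {lev : V → ℕ}
    (h : IsCanopyTree d G lev) : Countable V := by
  obtain ⟨v⟩ := h.isTree.connected.nonempty
  have key : ∀ n, {y | stepR G n v y}.Finite := by
    intro n
    induction n with
    | zero => exact (Set.finite_singleton v).subset (fun y hy => by
        have : v = y := hy
        simp [this])
    | succ n ih =>
      refine (ih.biUnion (fun z _ => h.finite_nbr hd z)).subset ?_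
      rintro y ⟨z, hz, hzy⟩
      exact Set.mem_biUnion hz hzy
  have huniv : (Set.univ : Set V) ⊆ ⋃ n, {y | stepR G n v y} := by
    intro y _
    have := h.isTree.connected.preconnected v y
    rw [reachable_iff_stepR] at this
    simpa using this
  have : (Set.univ : Set V).Countable :=
    (Set.countable_iUnion fun n => (key n).countable).mono huniv
  exact Set.countable_univ_iff.mp this

theorem exists_cdata {d : ℕ} (hd : 3 ≤ d) {V : Type*} {G : SimpleGraph V} {lev : V → ℕ}
    (h : IsCanopyTree d G lev) (v : V) :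
    ∃ C : CData (ZMod (d - 1)) G, ∃ j, C.ray j = v := by
  classical
  have : NeZero (d - 1) := ⟨by omega⟩
  choose par hpar hparu using h.up
  -- existence of children
  have hne : ∀ w, 1 ≤ lev w → ∃ u, par u = w := by
    intro w hw
    have h1 := h.down w hw
    have h2 : {x | G.Adj w x ∧ lev x + 1 = lev w}.Nonempty := by
      refine Set.nonempty_of_ncard_ne_zero ?_
      omega
    obtain ⟨u, hu1, hu2⟩ := h2
    exact ⟨u, (hparu u w ⟨hu1.symm, hu2.symm⟩).symm⟩
  have hlp : ∀ v, lev (par v) = lev v + 1 := fun v => (hpar v).2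
  -- leaf below v
  have hleaf : ∀ n w, lev w = n → ∃ u, lev u = 0 ∧ par^[n] u = w := by
    intro n
    induction n with
    | zero => intro w hw; exact ⟨w, hw, rfl⟩
    | succ n ih =>
      intro w hw
      obtain ⟨u, hu⟩ := hne w (by omega)
      have hlu : lev u = n := by
        have := hlp u
        rw [hu] at this
        omega
      obtain ⟨x, hx1, hx2⟩ := ih u hlu
      refine ⟨x, hx1, ?_⟩
      rw [Function.iterate_succ_apply', hx2, hu]
  obtain ⟨x0, hx0, hx0v⟩ := hleaf (lev v) v rfl
  let ray : ℕ → V := fun k => par^[k] x0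
  have hray : ∀ k, lev (ray k) = k := by
    intro k
    induction k with
    | zero => exact hx0
    | succ k ih =>
      change lev (par^[k+1] x0) = k + 1
      rw [Function.iterate_succ_apply', hlp]
      have : lev (par^[k] x0) = k := ih
      rw [this]
  have hpray : ∀ k, par (ray k) = ray (k + 1) := by
    intro k
    change par (par^[k] x0) = par^[k+1] x0
    rw [Function.iterate_succ_apply']
  -- labelled children
  have hch : ∀ w, 1 ≤ lev w → ∀ t, par t = w →
      ∃ f : ZMod (d - 1) → V, Function.Injective f ∧ (∀ u, par u = w ↔ ∃ a, f a = u) ∧ f 0 = t := by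
    intro w hw t ht
    have hset : {x | G.Adj w x ∧ lev x + 1 = lev w} = {x | par x = w} := by
      ext x
      simp only [Set.mem_ofPred_eq]
      constructor
      · rintro ⟨h1, h2⟩
        exact (hparu x w ⟨h1.symm, h2.symm⟩).symm
      · intro h1
        subst h1
        exact ⟨(hpar x).1.symm, (hlp x).symm⟩
    have h1 := h.down w hw
    rw [hset] at h1
    have hfin : {x | par x = w}.Finite := by
      refine Set.finite_of_ncard_pos ?_
      omega
    have : Finite ({x | par x = w} : Set V) := hfin
    have hcard : Nat.card (ZMod (d - 1)) = Nat.card ({x | par x = w} : Set V) := by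
      rw [Nat.card_zmod, Nat.card_coe_set_eq, h1]
    have : Finite (ZMod (d - 1)) := by infer_instance
    obtain ⟨e0⟩ : Nonempty (ZMod (d - 1) ≃ ({x | par x = w} : Set V)) :=
      (Finite.card_eq.mp hcard)
    let e := (Equiv.swap 0 (e0.symm ⟨t, ht⟩)).trans e0
    refine ⟨fun a => (e a : V), ?_, ?_, ?_⟩
    · intro a b hab
      exact e.injective (Subtype.ext hab)
    · intro u
      constructor
      · intro hu
        refine ⟨e.symm ⟨u, hu⟩, ?_⟩
        simp
      · rintro ⟨a, rfl⟩
        exact (e a).2
    · simp [e]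
  -- target of the 0-th child
  have htar : ∀ w, 1 ≤ lev w → ∃ t, par t = w ∧ (∀ k, w = ray (k + 1) → t = ray k) := by
    intro w hw
    by_cases hk : ∃ k, w = ray (k + 1)
    · obtain ⟨k, rfl⟩ := hk
      refine ⟨ray k, hpray k, ?_⟩
      intro k' hk'
      have h1 := hray (k + 1)
      rw [hk', hray (k' + 1)] at h1
      rw [show k = k' by omega]
    · obtain ⟨t, ht⟩ := hne w hw
      refine ⟨t, ht, ?_⟩
      intro k hk'
      exact absurd ⟨k, hk'⟩ hk
  have hall : ∀ w, ∃ f : ZMod (d - 1) → V, 1 ≤ lev w → (Function.Injective f ∧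
      (∀ u, par u = w ↔ ∃ a, f a = u) ∧ (∀ k, w = ray (k + 1) → f 0 = ray k)) := by
    intro w
    by_cases hw : 1 ≤ lev w
    · obtain ⟨t, ht, ht'⟩ := htar w hw
      obtain ⟨f, hf1, hf2, hf3⟩ := hch w hw t ht
      refine ⟨f, fun _ => ⟨hf1, hf2, fun k hk => ?_⟩⟩
      rw [hf3, ht' k hk]
    · exact ⟨fun _ => w, fun h => absurd h hw⟩
  choose child hchild using hall
  refine ⟨{ lev := lev, par := par, child := child, ray := ray, lev_par := hlp, adj_iff := ?_,
            par_child := ?_, child_inj := ?_, child_surj := ?_, lev_ray := hray,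
            par_ray := hpray, child_ray := ?_ }, lev v, ?_⟩
  · intro a b
    constructor
    · intro hab
      rcases h.no_other a b hab with h1 | h1
      · exact Or.inl (hparu a b ⟨hab, h1⟩).symm
      · exact Or.inr (hparu b a ⟨hab.symm, h1⟩).symm
    · rintro (rfl | rfl)
      · exact (hpar a).1
      · exact (hpar b).1.symm
  · intro w a hw
    exact ((hchild w hw).2.1 _).mpr ⟨a, rfl⟩
  · intro w hw
    exact (hchild w hw).1
  · intro u
    have hw : 1 ≤ lev (par u) := by rw [hlp]; omega
    exact ((hchild (par u) hw).2.1 u).mp rfl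
  · intro k
    refine (hchild (ray (k + 1)) ?_).2.2 k rfl
    rw [hray]; omega
  · exact hx0v

end T1

end Pool.Agent.Helper37.Canopy
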